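import Pool.Agent.Q49.TG.Net2

/-!
# A toric Bayesian network whose non-sink subgraph is not perfect

The definitions (Bayesian networks, the map `φ` from `ℝ[x]` to `ℝ[Θ, z]/J`, its kernel `P_G`, toric
ideals, invertible linear changes of variables, the non-sink subgraph) are in
`Pool.Agent.Q49.TG.NetDef`.

The network has the vertices `0, 1, 2, 3` and all edges `i → j` with `i < j` except `0 → 1`. Its
only sink is the vertex `3`; the vertices `0` and `1` are parents of the non-sink `2` and they are
not adjacent. For all numbers of states, `P_G` becomes toric after a linear change of variables.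
-/

set_option autoImplicit false

namespace Pool.Agent.Results.MP_52d0c2_ag.NonSinkNotPerfect

open Q49.TG

/-- For all numbers of states `κ i ≥ 2` the Bayesian network on four vertices with all edges `i → j`,
`i < j`, except `0 → 1`, is toric, and its non-sink subgraph is not perfect. In particular it is not
true that the non-sink subgraph of every toric Bayesian network is perfect. -/
theorem result :
    (∀ κ : Fin 4 → ℕ, (∀ i, 2 ≤ κ i) → ∃ G : Network 4, G.κ = κ ∧
      (∀ i j, G.edge i j ↔ i < j ∧ ¬ (i = 0 ∧ j = 1)) ∧ G.Toric ∧ ¬ G.NonSinkPerfect) ∧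
    ¬ ∀ (n : ℕ) (G : Network n), G.Toric → G.NonSinkPerfect :=
  ⟨fun κ hκ => ⟨G4 κ hκ, rfl, fun _ _ => Iff.rfl, toric_G4 hκ, not_perfect_G4 hκ⟩,
    fun h => not_perfect_G4 (κ := fun _ => 2) (fun _ => le_rfl) (h 4 _ (toric_G4 _))⟩

end Pool.Agent.Results.MP_52d0c2_ag.NonSinkNotPerfect
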